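import Pool.Agent.Helper74.CO.Goals

/-!
Project CO, packet CHA: additive characters.
-/

set_option autoImplicit false

namespace Pool.Agent.Helper55.CO

open Pool.Agent.Helper74.CO

/-- CHA -/
theorem t_CHA : Pool.Agent.Helper74.CO.CHA := by
  intro p hp
  have hp0 : (p : ℂ) ≠ 0 := Nat.cast_ne_zero.2 hp.out.ne_zero
  refine ⟨fun l => (ZMod.stdAddChar (N := p)).mulShift (l : ZMod p), fun l x => ?_, fun l x => ?_,
    ?_, fun l hl hlp h => ?_⟩
  · rw [AddChar.mulShift_apply]
    have h1 : (l : ZMod p) * x = ((l * (x.val : ℤ) : ℤ) : ZMod p) := by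
      push_cast
      rw [ZMod.natCast_zmod_val]
    rw [h1, ZMod.stdAddChar_coe]
    unfold ex cw
    congr 1
    push_cast
    field_simp
  · rw [AddChar.mulShift_apply, AddChar.mulShift_apply, Int.cast_one, one_mul]
  · have h1 : (ZMod.stdAddChar (N := p)).mulShift ((0 : ℤ) : ZMod p) = 1 := by
      rw [Int.cast_zero, AddChar.mulShift_zero]
    exact h1
  · have h1 : (l : ZMod p) ≠ 0 := by
      intro h0
      rw [ZMod.intCast_zmod_eq_zero_iff_dvd] at h0
      have := Int.le_of_dvd (abs_pos.2 hl) ((dvd_abs _ _).2 h0)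
      omega
    exact ZMod.isPrimitive_stdAddChar p h1 h

end Pool.Agent.Helper55.CO
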